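import Pool.Agent.Results.MP_afaf30_gt.InfiniteOrbits
import Pool.Agent.U385.HF.Tri

/-!
# The Hilbert-Smith conjecture for actions which preserve flags of foliations

A homeomorphism between open subsets of `ℝⁿ` is locally triangular if locally the first `i`
coordinates of the image depend only on the first `i` coordinates of the point, for all `i`; that is,
it preserves the foliations by the planes on which the first `i` coordinates are constant.  No
regularity is assumed.
-/

set_option autoImplicit false

namespace Pool.Agent.Results.MP_afaf30_gt.FlagPreserving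

open MeasureTheory Set Metric Filter Topology
open scoped ENNReal
open Pool.Agent.U385.HF (TriAt FlagAt finite_orbit trivial_near)
open Pool.Agent.R775.HS (Stable RegA Crit Small GoodMap closure_zpowers_le crit_of_hom profinite')
open Pool.Agent.N512.HS (InfOrbit exists_good_inf crit_regI RegI)
open Pool.Agent.R775.HC (BL stable_BL)
open Pool.Agent.Y485.HS (nss_of_Z IsLie)
open Pool.Agent.Results.MP_afaf30_gt.InfiniteOrbits (Reg SobolevNear SmallImagesNear InfiniteOrbit
  HolderAt)

/-- The powers of `g` have compact and totally disconnected closure contained in `V`. -/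
def SmallTD {G : Type} [Group G] [TopologicalSpace G] (V : Set G) (g : G) : Prop :=
  IsCompact (closure (Subgroup.zpowers g : Set G)) ∧ closure (Subgroup.zpowers g : Set G) ⊆ V ∧
    IsTotallyDisconnected (closure (Subgroup.zpowers g : Set G))

theorem smallTD_of_hom {S G : Type} [Group S] [TopologicalSpace S] [IsTopologicalGroup S]
    [CompactSpace S] [TotallyDisconnectedSpace S] [Group G] [TopologicalSpace G]
    [IsTopologicalGroup G] [T2Space G] {V : Set G} (i : S →* G) (hi : Continuous i)
    (hinj : Function.Injective i) (hV : ∀ s, i s ∈ V) (s : S) : SmallTD V (i s) := by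
  have h1 := closure_zpowers_le i hi s
  rw [Subgroup.topologicalClosure_coe] at h1
  refine ⟨?_, ?_, ?_⟩
  · exact ((((Subgroup.isClosed_topologicalClosure _).isCompact).image hi)).of_isClosed_subset
      isClosed_closure h1
  · intro k hk
    obtain ⟨k', -, rfl⟩ := h1 hk
    exact hV k'
  · intro t ht hc
    have hr : t ⊆ range i := fun k hk => by
      obtain ⟨k', -, rfl⟩ := h1 (ht hk)
      exact mem_range_self _
    have he : Topology.IsClosedEmbedding i := hi.isClosedEmbedding hinj
    have h2 : i '' (i ⁻¹' t) = t := image_preimage_eq_of_subset hr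
    have h3 : IsPreconnected (i ⁻¹' t) := by
      rw [← he.isInducing.isPreconnected_image, h2]
      exact hc
    have h4 := h3.subsingleton
    rw [← h2]
    exact h4.image _

/-- Reduction to compact totally disconnected groups. -/
theorem lie_prof {n : ℕ} (hn : 1 ≤ n) {X : Type} [TopologicalSpace X] [T2Space X]
    {A : Set (OpenPartialHomeomorph X (EuclideanSpace ℝ (Fin n)))} (hA : Stable n A)
    (hdense : Dense (RegA A)) (hconn : IsPreconnected (RegA A)) {G : Type} [Group G]
    [TopologicalSpace G] [IsTopologicalGroup G] [LocallyCompactSpace G] [MulAction G X]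
    [ContinuousSMul G X] [FaithfulSMul G X] {V : Set G} (hV : V ∈ 𝓝 (1 : G))
    (hcr : T2Space G → ∀ (S : Type) [Group S] [TopologicalSpace S] [IsTopologicalGroup S]
      [CompactSpace S] [T2Space S] [TotallyDisconnectedSpace S] [MulAction S X]
      [ContinuousSMul S X] (i : S →* G), Continuous i → Function.Injective i → (∀ s, i s ∈ V) →
      (∀ (s : S) (x : X), s • x = i s • x) → ∀ s : S, Crit A s) : IsLie G := by
  have hT2 : T2Space G := by
    refine ⟨fun g h hgh => ?_⟩
    obtain ⟨x, hx⟩ : ∃ x : X, g • x ≠ h • x := by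
      by_contra hall
      push Not at hall
      exact hgh (eq_of_smul_eq_smul hall)
    obtain ⟨u, v, hu, hv, hgu, hhv, huv⟩ := t2_separation hx
    have hc : Continuous (fun g : G => g • x) := by fun_prop
    exact ⟨_, _, hu.preimage hc, hv.preimage hc, hgu, hhv, huv.preimage _⟩
  have hN : Pool.Agent.W660.GY.NSS G := by
    refine nss_of_Z V hV ?_
    intro S _ _ _ _ _ _ i hi hinj hiV
    let _ : MulAction S X := MulAction.compHom X i
    have _ : ContinuousSMul S X := ⟨by
      have h : Continuous (fun q : S × X => i q.1 • q.2) := by fun_prop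
      exact h⟩
    obtain ⟨K, hKo, hKt⟩ := profinite' hn hA hdense hconn
      (hcr hT2 S i hi hinj hiV (fun _ _ => rfl)) (fun K P _ q hq =>
        crit_of_hom (K.subtype.comp P.subtype)
          (continuous_subtype_val.comp continuous_subtype_val) (fun _ _ => rfl) q hq)
    have hbot : K = ⊥ := by
      rw [eq_bot_iff]
      intro k hk
      rw [Subgroup.mem_bot]
      apply hinj
      refine eq_of_smul_eq_smul (α := X) fun x => ?_
      rw [map_one, one_smul]
      exact hKt k hk x
    rw [hbot] at hKo
    refine discreteTopology_of_isOpen_singleton_one ?_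
    convert hKo using 1
    ext x
    simp
  obtain ⟨E, i1, i2, i3, ⟨C⟩⟩ := Pool.Agent.Y328.HS.lga G hN
  let _ := i1
  let _ := i2
  have _ := i3
  exact Pool.Agent.Y286.HS.lgb G E C

/-- flags give finite orbits -/
theorem not_inf {n : ℕ} {X G S : Type} [TopologicalSpace X] [Group G] [MulAction G X] [Group S]
    [TopologicalSpace S] [IsTopologicalGroup S] [CompactSpace S] [T2Space S]
    [TotallyDisconnectedSpace S] [MulAction S X] [ContinuousSMul S X] (i : S →* G)
    (hact : ∀ (s : S) (x : X), s • x = i s • x) (s : S) (x : X) {N : ℤ} (hN : N ≠ 0)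
    (h : FlagAt n ((i s) ^ N) x) : ∃ m : ℕ, 0 < m ∧ s ^ m • x = x := by
  have h1 : FlagAt n (s ^ N) x := by
    obtain ⟨ψ, hx, hψ⟩ := h
    refine ⟨ψ, hx, fun k y hy hgy => ?_⟩
    have h2 : ∀ z : X, (s ^ N) ^ k • z = ((i s) ^ N) ^ k • z := by
      intro z
      rw [hact, map_zpow, map_zpow]
    rw [h2] at hgy
    have h3 := hψ k y hy hgy
    simp only [h2]
    exact h3
  obtain ⟨m, hm, h2⟩ := finite_orbit h1
  refine ⟨N.natAbs * m, Nat.mul_pos (Int.natAbs_pos.2 hN) hm, ?_⟩
  have h3 : s ^ (N * m) ∈ MulAction.stabilizer S x := by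
    rw [zpow_mul, zpow_natCast]
    exact h2
  have h4 : s ^ (N.natAbs * m) ∈ MulAction.stabilizer S x := by
    rcases Int.natAbs_eq N with h5 | h5
    · rw [h5, ← Nat.cast_mul] at h3
      rw [← zpow_natCast]
      exact h3
    · rw [h5] at h3
      have h6 := (MulAction.stabilizer S x).inv_mem h3
      rw [← zpow_neg] at h6
      rw [← zpow_natCast]
      convert h6 using 2
      push_cast
      ring
  exact h4

/-- `G` has a structure of a Lie group. -/
def IsLieGroup (G : Type) [Group G] [TopologicalSpace G] : Prop :=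
  ∃ (m : ℕ) (_ : ChartedSpace (EuclideanSpace ℝ (Fin m)) G),
    LieGroup (modelWithCornersSelf ℝ (EuclideanSpace ℝ (Fin m))) ((⊤ : ℕ∞) : WithTop ℕ∞) G

/-- For all `g` with powers in a compact totally disconnected subset of `V` and `g ^ (p ^ j) → 1` for
a prime `p`, and all points of `D` of infinite orbit, some nonzero power of `g` preserves a flag near
the point. -/
def Flags (n : ℕ) {G X : Type} [Group G] [TopologicalSpace G] [TopologicalSpace X] [MulAction G X]
    (V : Set G) (D : Set X) : Prop :=
  ∀ g : G, SmallTD V g → (∃ p : ℕ, p.Prime ∧ Tendsto (fun j : ℕ => g ^ p ^ j) atTop (𝓝 1)) →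
    ∀ x ∈ D, InfiniteOrbit g x → ∃ N : ℤ, N ≠ 0 ∧ FlagAt n (g ^ N) x

/-- For all `g` with powers in a compact totally disconnected subset of `V` there are `M ≠ 0` and
countably many closed totally disconnected sets such that at all regular points of infinite orbit
outside these sets some nonzero power of `g` preserves a flag near the point, or `g ^ M` is
regular. -/
def FlagsOrRegular (n : ℕ) {G X : Type} [Group G] [TopologicalSpace G] [MetricSpace X]
    [MeasurableSpace X] [BorelSpace X] [MulAction G X] (V : Set G) : Prop :=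
  ∀ g : G, SmallTD V g → ∃ M : ℤ, M ≠ 0 ∧ ∃ T : ℕ → Set X, (∀ i, IsClosed (T i)) ∧
    (∀ i, IsTotallyDisconnected (T i)) ∧ ∀ x ∈ Reg n X, InfiniteOrbit g x →
      (∀ i, x ∉ T i) → (∃ N : ℤ, N ≠ 0 ∧ FlagAt n (g ^ N) x) ∨
        (SobolevNear n (fun x : X => g ^ M • x) x ∨
          SmallImagesNear n (fun x : X => g ^ M • x) x) ∨ HolderAt n (g ^ M) x

/-- **The Hilbert-Smith conjecture for actions which preserve flags of foliations.**
(1) Let a compact totally disconnected group `S` act continuously on a space `X`. If the powers of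
`s ∈ S` preserve near `x` a complete flag of foliations (of class `C⁰`) of a chart at `x`, then a
power of `s`, of positive exponent, is the identity near `x`.
(2) Let `X` be a Hausdorff space with an open dense connected subset `D` which is locally
homeomorphic to `ℝⁿ`, `n ≥ 1`. A locally compact group `G` acting faithfully and continuously on `X`
is a Lie group if, for a neighbourhood `V` of `1`, condition `Flags n V D` holds.
(3) Let `X` be a metric space, `n ≥ 2`, in which the points with a neighbourhood bi-Lipschitz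
equivalent to an open subset of `ℝⁿ` form a dense connected set. A locally compact group `G` acting
faithfully and continuously on `X` is a Lie group if, for a neighbourhood `V` of `1`, condition
`FlagsOrRegular n V` holds. -/
theorem result (n : ℕ) :
    (∀ (X S : Type) [TopologicalSpace X] [Group S] [TopologicalSpace S] [IsTopologicalGroup S]
      [CompactSpace S] [T2Space S] [TotallyDisconnectedSpace S] [MulAction S X]
      [ContinuousSMul S X] (s : S) (x : X), FlagAt n s x →
        ∃ m : ℕ, 0 < m ∧ ∀ᶠ y in 𝓝 x, s ^ m • y = y) ∧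
    (1 ≤ n → ∀ (X : Type) [TopologicalSpace X] [T2Space X] (D : Set X), IsOpen D → Dense D →
      IsPreconnected D →
      (∀ x ∈ D, ∃ φ : OpenPartialHomeomorph X (EuclideanSpace ℝ (Fin n)), x ∈ φ.source) →
      ∀ (G : Type) [Group G] [TopologicalSpace G] [IsTopologicalGroup G] [LocallyCompactSpace G]
        [MulAction G X] [ContinuousSMul G X] [FaithfulSMul G X], ∀ V ∈ 𝓝 (1 : G),
        Flags n V D → IsLieGroup G) ∧
    (2 ≤ n → ∀ (X : Type) [MetricSpace X] [MeasurableSpace X] [BorelSpace X],
      Dense (Reg n X) → IsPreconnected (Reg n X) →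
      ∀ (G : Type) [Group G] [TopologicalSpace G] [IsTopologicalGroup G] [LocallyCompactSpace G]
        [MulAction G X] [ContinuousSMul G X] [FaithfulSMul G X], ∀ V ∈ 𝓝 (1 : G),
        FlagsOrRegular (X := X) n V → IsLieGroup G) := by
  refine ⟨fun X S _ _ _ _ _ _ _ _ _ s x hx => trivial_near hx, ?_, ?_⟩
  · intro hn X _ _ D hDo hDd hDc hch G _ _ _ _ _ _ _ V hV h
    let A : Set (OpenPartialHomeomorph X (EuclideanSpace ℝ (Fin n))) := {φ | φ.source ⊆ D}
    have hA : Stable n A := by
      intro φ hφ e _
      show (φ.trans e).source ⊆ D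
      rw [OpenPartialHomeomorph.trans_source]
      exact inter_subset_left.trans hφ
    have hR : RegA A = D := by
      ext x
      constructor
      · rintro ⟨φ, hφ, hx⟩
        exact hφ hx
      · intro hx
        obtain ⟨φ, hφ⟩ := hch x hx
        refine ⟨φ.restrOpen D hDo, ?_, ?_⟩
        · show (φ.restrOpen D hDo).source ⊆ D
          rw [OpenPartialHomeomorph.restrOpen_source]
          exact inter_subset_right
        · rw [OpenPartialHomeomorph.restrOpen_source]
          exact ⟨hφ, hx⟩
    refine lie_prof hn hA (hR ▸ hDd) (hR ▸ hDc) hV ?_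
    intro hT2 S _ _ _ _ _ _ _ _ i hi hinj hiV hact s p hp hgp hcomp φ hφ hs
    obtain ⟨F0, -, -, -, h4⟩ := exists_good_inf hcomp hs
    apply h4
    intro y hy ε hε
    refine ⟨y, hy, by rwa [dist_self], ?_⟩
    intro C hC3 _ hCZ _ v hv
    exfalso
    have hvt : v ∈ φ.target := hs.1 (closedBall_subset_closedBall (by norm_num) (hC3 hv))
    obtain ⟨x, hxφ, hxI⟩ := mem_closure_iff.1 (hCZ v hv) φ.source φ.open_source
      (φ.map_target hvt)
    have hpow : ∀ m : ℕ, s ^ m • x = (i s) ^ m • x := fun m => by rw [hact, map_pow]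
    have hgp' : Tendsto (fun j : ℕ => (i s) ^ p ^ j) atTop (𝓝 1) := by
      have h2 := (hi.tendsto 1).comp hgp
      simpa [Function.comp_def] using h2
    obtain ⟨N, hN, hF⟩ := h (i s) (smallTD_of_hom i hi hinj hiV s) ⟨p, hp, hgp'⟩ x (hφ hxφ)
      (fun m hm hx => by
      rw [← hpow] at hx
      exact hxI m hm hx)
    obtain ⟨m, hm, hx⟩ := not_inf i hact s x hN hF
    exact hxI m hm hx
  · intro hn X _ _ _ hd hc G _ _ _ _ _ _ _ V hV h
    refine lie_prof (by omega : 1 ≤ n) (stable_BL n X) hd hc hV ?_
    intro hT2 S _ _ _ _ _ _ _ _ i hi hinj hiV hact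
    have hInf : ∀ (s : S) (x : X), InfOrbit s x ↔ InfiniteOrbit (i s) x := by
      intro s x
      have h1 : ∀ m : ℕ, s ^ m • x = (i s) ^ m • x := fun m => by rw [hact, map_pow]
      simp only [InfOrbit, InfiniteOrbit, h1]
    refine crit_regI hn fun s => ?_
    obtain ⟨M, hM, T, hT1, hT2', hT3⟩ := h (i s) (smallTD_of_hom i hi hinj hiV s)
    refine ⟨M, hM, T, hT1, hT2', fun x hx hxI hxT => ?_⟩
    have hxI' : InfOrbit s x := (Pool.Agent.N512.HS.inf_zpow' hM).1 hxI
    have hz : ∀ z : X, s ^ M • z = (i s) ^ M • z := fun z => by rw [hact, map_zpow]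
    rcases hT3 x hx ((hInf s x).1 hxI') hxT with ⟨N, hN, hF⟩ | h1 | ⟨α, C, δ, h1, h2, h3⟩
    · obtain ⟨m, hm, hx'⟩ := not_inf i hact s x hN hF
      exact absurd hx' (hxI' m hm)
    · left
      simp only [hz]
      exact h1
    · right
      refine ⟨α, C, δ, h1, h2, fun y hy hyx => ?_⟩
      rw [hz, hz]
      refine h3 y ?_ hyx
      have h5 := (hInf (s ^ M) y).1 hy
      rwa [map_zpow] at h5

end Pool.Agent.Results.MP_afaf30_gt.FlagPreserving
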