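import Pool.Agent.U498.HSF.Main

/-!
# The Hilbert-Smith conjecture for homeomorphisms of finite energy of exponent less than `n + 2`

Let `n ≥ 1`, let `X` be a Hausdorff space and `𝒜` a family of topological charts of `X` with values
in `ℝⁿ` the domains of which cover a dense connected set (for example the bi-Lipschitz charts of an
Alexandrov space of dimension `n`, or the charts of a connected topological manifold; nothing is
assumed about the changes of coordinates). Let `G` be a locally compact group acting faithfully and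
continuously on `X`, and `V` a neighbourhood of `1`. Suppose that every element `g` whose powers have
compact closure contained in `V` has the following property: for all points `x` outside a
countable set, in every chart of the family whose domain contains `x` and `gx`, near `x` the map
`g` is of one of the following classes.

* Finite energy of an exponent `q < n + 2` along a given sequence of scales `r j → 0`: the sums
  `∑ |g(x_a) - g(y_a)|^q` over `r j`-separated points `a`, with `|x_a - a|, |y_a - a| ≤ r j`, are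
  bounded.
* Fractional Sobolev class `W^{s,q}` (in the form of Hajlasz), `s > n/q`, `s > n/(n+2)`. With a
  constant function `h` this is the class of the Hölder maps with an exponent `s > n/(n+2)`.
* The Sobolev class `W^{1,q}`, `q > n - 1`, if `n ≥ 2`.

The countable set, the class, the exponents, the neighbourhoods and the norms depend on `g`, on
`x` and on the chart in an arbitrary way. Then `G` is a Lie group.

Proof (files in `Pool/Agent/U498/HSF/` and the starting library). By Baire's theorem there is a coset
of an open subgroup `K` of a small compact totally disconnected group with uniformly bounded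
energies, and equicontinuity gives energies of exponent `n + 2` which tend to zero uniformly. For
`g ∈ K` the average `F` of the closure of the powers of `g` and its twisted averages `w_i` (eigenfunctions
of `g` for `exp(2πi/p)`) have small energies too, by convexity. So the image of the map
`(F, -u/w_i)` into `ℝⁿ × ℂ` is a null set for all linear combinations `u` of the `w_j`, and by Fubini's
theorem one can choose the coefficients of an infinite series of the `w_i` one after the other such
that almost every fibre of `F` without fixed points carries an eigenfunction without zeros (a finite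
partial sum). The circle criterion of the starting library (`Pool/Agent/N512/CC`) says that this
is impossible, so an open subgroup acts trivially near the point. Countable closed sets of bad
points are excluded directly by the circle criterion, and Newman's theorem globalises.
-/

set_option autoImplicit false

namespace Pool.Agent.Results.MP_afaf30_gt.FractionalSobolev

open MeasureTheory Set Metric Filter Topology
open scoped ENNReal

/-- The powers of `g` have compact closure contained in `V`. -/
def SmallPowers {G : Type} [Group G] [TopologicalSpace G] (V : Set G) (g : G) : Prop :=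
  IsCompact (closure (Subgroup.zpowers g : Set G)) ∧ closure (Subgroup.zpowers g : Set G) ⊆ V

/-- The energy of exponent `q` of `f` on `O` at the scale `r` is at most `b`: the sum of
`|f(x_a) - f(y_a)|^q` over an `r`-separated set of points `a` of `O` is at most `b`, for all points
`x_a`, `y_a` of `O` at distance at most `r` from `a`. -/
def Energy {n : ℕ} (q : ℝ) (O : Set (EuclideanSpace ℝ (Fin n))) (r b : ℝ)
    (f : EuclideanSpace ℝ (Fin n) → EuclideanSpace ℝ (Fin n)) : Prop :=
  ∀ (A : Finset (EuclideanSpace ℝ (Fin n)))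
    (x y : EuclideanSpace ℝ (Fin n) → EuclideanSpace ℝ (Fin n)),
    (∀ a ∈ A, a ∈ O ∧ x a ∈ O ∧ y a ∈ O ∧ dist (x a) a ≤ r ∧ dist (y a) a ≤ r) →
    (∀ a ∈ A, ∀ a' ∈ A, a ≠ a' → r ≤ dist a a') → ∑ a ∈ A, dist (f (x a)) (f (y a)) ^ q ≤ b

/-- The map `f` is of fractional Sobolev class `W^{s,q}` on `O`, in the form of Hajlasz. -/
def FracSobolev {n : ℕ} (s q : ℝ) (O : Set (EuclideanSpace ℝ (Fin n)))
    (f : EuclideanSpace ℝ (Fin n) → EuclideanSpace ℝ (Fin n)) : Prop :=
  ∃ h : EuclideanSpace ℝ (Fin n) → ℝ≥0∞, Measurable h ∧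
    (∀ v ∈ O, ∀ w ∈ O, edist (f v) (f w) ≤ ENNReal.ofReal (dist v w ^ s) * (h v + h w)) ∧
    ∫⁻ v in O, h v ^ q < ∞

/-- The map `f` is of Sobolev class `W^{1,q}` on `O`, in the form of Hajlasz. -/
def Sobolev {n : ℕ} (q : ℝ) (O : Set (EuclideanSpace ℝ (Fin n)))
    (f : EuclideanSpace ℝ (Fin n) → EuclideanSpace ℝ (Fin n)) : Prop :=
  ∃ h : EuclideanSpace ℝ (Fin n) → ℝ≥0∞, Measurable h ∧
    (∀ v ∈ O, ∀ w ∈ O, edist (f v) (f w) ≤ edist v w * (h v + h w)) ∧
    ∫⁻ v in O, h v ^ q < ∞

/-- The map `f` belongs to one of the three classes on `O`. -/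
def Regular {n : ℕ} (r : ℕ → ℝ) (O : Set (EuclideanSpace ℝ (Fin n)))
    (f : EuclideanSpace ℝ (Fin n) → EuclideanSpace ℝ (Fin n)) : Prop :=
  (∃ (q C : ℝ) (m : ℕ), 0 < q ∧ q < n + 2 ∧ ∀ j, m ≤ j → Energy q O (r j) C f) ∨
  (∃ s q : ℝ, 0 < s ∧ 0 < q ∧ (n : ℝ) < s * q ∧ (n : ℝ) < s * (n + 2) ∧ FracSobolev s q O f) ∨
  (2 ≤ n ∧ ∃ q : ℝ, (n : ℝ) - 1 < q ∧ Sobolev q O f)

/-- The map `g`, read in the chart `φ`, is defined and of one of the three classes near `x`. -/
def RegularAt {n : ℕ} {G X : Type} [TopologicalSpace X] [Group G] [MulAction G X] (r : ℕ → ℝ)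
    (φ : OpenPartialHomeomorph X (EuclideanSpace ℝ (Fin n))) (g : G) (x : X) : Prop :=
  ∃ O : Set (EuclideanSpace ℝ (Fin n)), IsOpen O ∧ φ x ∈ O ∧ O ⊆ φ.target ∧
    (∀ v ∈ O, g • φ.symm v ∈ φ.source) ∧ Regular r O (fun v => φ (g • φ.symm v))

/-- The Hilbert-Smith conjecture for homeomorphisms which outside countable sets are locally of
finite energy of an exponent less than `n + 2`, or of class `W^{s,q}`, `s > n/q`, `s > n/(n+2)`, or
of class `W^{1,q}`, `q > n - 1`. -/
theorem result :
    ∀ (n : ℕ), 1 ≤ n → ∀ (X : Type) [TopologicalSpace X] [T2Space X]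
      (A : Set (OpenPartialHomeomorph X (EuclideanSpace ℝ (Fin n)))),
      Dense {x | ∃ φ ∈ A, x ∈ φ.source} → IsPreconnected {x | ∃ φ ∈ A, x ∈ φ.source} →
      ∀ (G : Type) [Group G] [TopologicalSpace G] [IsTopologicalGroup G] [LocallyCompactSpace G]
        [MulAction G X] [ContinuousSMul G X] [FaithfulSMul G X],
      ∀ r : ℕ → ℝ, (∀ j, 0 < r j) → Tendsto r atTop (𝓝 0) → ∀ V ∈ 𝓝 (1 : G),
      (∀ g : G, SmallPowers V g → ∃ N : Set X, N.Countable ∧
        ∀ φ ∈ A, ∀ x ∈ φ.source, x ∉ N → g • x ∈ φ.source → RegularAt r φ g x) →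
      ∃ (m : ℕ) (_ : ChartedSpace (EuclideanSpace ℝ (Fin m)) G),
        LieGroup (modelWithCornersSelf ℝ (EuclideanSpace ℝ (Fin m)))
          ((⊤ : ℕ∞) : WithTop ℕ∞) G := by
  intro n hn X _ _ A hd hc G _ _ _ _ _ _ _ r hr hr0 V hV h
  refine Pool.Agent.U498.HSF.lie_kinds (ι := Option (ℕ × ℕ)) hn hd hc hV
    (Pool.Agent.U498.HSF.kinds hn hr hr0) ?_
  intro g hg
  obtain ⟨N, hN, hreg⟩ := h g hg
  refine ⟨N, hN, fun φ hφ x hx hxN hgx => ?_⟩
  obtain ⟨O, hO, hxO, hOt, hOg, hcase⟩ := hreg φ hφ x hx hxN hgx
  rcases hcase with ⟨q, C, m, hq, hq2, hE⟩ | ⟨s, q, hs, hq, hsq, hsn, hF⟩ | ⟨hn2, q, hq, hF⟩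
  · exact Pool.Agent.U498.HSF.kind_of_bdd φ g hx hO hxO hOt hOg hq hq2 hE
  · exact Pool.Agent.U498.HSF.kind_of_frac φ g hx hO hxO hOt hOg hr hr0 hs hq hsq hsn hF
  · exact Pool.Agent.U498.HSF.kind_of_sob hn2 φ g hx hO hxO hOt hOg hq hF

end Pool.Agent.Results.MP_afaf30_gt.FractionalSobolev
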