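import Pool.Agent.Results.MP_afaf30_gt.FlagPreserving
import Pool.Agent.U161.LF.Leaf

/-!
# The Hilbert-Smith conjecture for actions which preserve the leaves of a one-dimensional foliation

Let `D` be an open dense connected subset, locally homeomorphic to `ℝⁿ`, of a Hausdorff space `X`
(for instance the set of the topologically regular points of an Alexandrov space), and let a locally
compact group `G` act faithfully and continuously on `X`. If all small elements of `G` map each leaf
of a one-dimensional foliation to itself (for instance each orbit of a continuous flow without fixed
points in `D`), then `G` is a Lie group. No regularity is assumed, and the leaves may be dense.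

Idea of the proof. Let a compact totally disconnected abelian group `S` preserve the leaves. The
orbit of a point `x` under a small open subgroup lies in a chart `ℝ × Y` and in one leaf, so in
countably many lines; by Baire's theorem the orbit of some point `x'` of it under a smaller open
subgroup `N` lies in one line. An element of a still smaller subgroup maps a short segment of this
line continuously into the leaf, hence (countable sets are totally disconnected) into the line, and
it is monotone there. So the orbit of `x'` under the powers of its square moves monotonically along
the line, and since powers come back arbitrarily close to `1`, it does not move at all. So there are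
no infinite orbits, and the starting theorems on infinite orbits apply.
-/

set_option autoImplicit false

open Set Filter Topology

namespace Pool.Agent.Results.MP_afaf30_gt.LeafPreserving

open Pool.Agent.U161.LF (LeavesAt exists_pow_fix)
open Pool.Agent.Results.MP_afaf30_gt.InfiniteOrbits (InfiniteOrbit)
open Pool.Agent.Results.MP_afaf30_gt.FlagPreserving (SmallTD IsLieGroup)

/-- For all `g` with powers in a compact totally disconnected subset of `V` and `g ^ (p ^ j) → 1` for
a prime `p`, and all points of `D` of infinite orbit, the closure of the powers of `g` maps each leaf
of some one-dimensional foliation near the point to itself. -/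
def Leaves {G X : Type} [Group G] [TopologicalSpace G] [TopologicalSpace X] [MulAction G X]
    (V : Set G) (D : Set X) : Prop :=
  ∀ g : G, SmallTD V g → (∃ p : ℕ, p.Prime ∧ Tendsto (fun j : ℕ => g ^ p ^ j) atTop (𝓝 1)) →
    ∀ x ∈ D, InfiniteOrbit g x → LeavesAt (closure (Subgroup.zpowers g : Set G)) x

/-- **The Hilbert-Smith conjecture for actions which preserve the leaves of one-dimensional
foliations.**
(1) Let a compact totally disconnected group `S` act continuously on a space `X`. If the closure of
the powers of `s ∈ S` preserves the leaves near `x`, then a positive power of `s` fixes `x`.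
(2) Let `X` be a Hausdorff space with an open dense connected subset `D` which is locally
homeomorphic to `ℝⁿ`, `n ≥ 1`. A locally compact group `G` acting faithfully and continuously on `X`
is a Lie group if, for a neighbourhood `V` of `1`, condition `Leaves V D` holds. -/
theorem result (n : ℕ) (hn : 1 ≤ n) :
    (∀ (X S : Type) [TopologicalSpace X] [Group S] [TopologicalSpace S] [IsTopologicalGroup S]
      [CompactSpace S] [T2Space S] [TotallyDisconnectedSpace S] [MulAction S X]
      [ContinuousSMul S X] (s : S) (x : X),
      LeavesAt (closure (Subgroup.zpowers s : Set S)) x → ∃ m : ℕ, 0 < m ∧ s ^ m • x = x) ∧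
    (∀ (X : Type) [TopologicalSpace X] [T2Space X] (D : Set X), IsOpen D → Dense D →
      IsPreconnected D →
      (∀ x ∈ D, ∃ φ : OpenPartialHomeomorph X (EuclideanSpace ℝ (Fin n)), x ∈ φ.source) →
      ∀ (G : Type) [Group G] [TopologicalSpace G] [IsTopologicalGroup G] [LocallyCompactSpace G]
        [MulAction G X] [ContinuousSMul G X] [FaithfulSMul G X], ∀ V ∈ 𝓝 (1 : G),
        Leaves V D → IsLieGroup G) := by
  refine ⟨fun X S _ _ _ _ _ _ _ _ _ s x hx =>
    exists_pow_fix isClosed_closure.isCompact
      (isTotallyDisconnected_of_totallyDisconnectedSpace _) hx, ?_⟩
  intro X _ _ D hDo hDd hDc hch G _ _ _ _ _ _ _ V hV h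
  have hT2 : T2Space G := by
    refine ⟨fun g h hgh => ?_⟩
    obtain ⟨x, hx⟩ : ∃ x : X, g • x ≠ h • x := by
      by_contra hall
      push Not at hall
      exact hgh (eq_of_smul_eq_smul hall)
    obtain ⟨u, v, hu, hv, hgu, hhv, huv⟩ := t2_separation hx
    have hc : Continuous (fun g : G => g • x) := by fun_prop
    exact ⟨_, _, hu.preimage hc, hv.preimage hc, hgu, hhv, huv.preimage _⟩
  refine (FlagPreserving.result n).2.1 hn X D hDo hDd hDc hch G V hV ?_
  intro g hg hp x hx hinf
  obtain ⟨m, hm, h1⟩ := exists_pow_fix hg.1 hg.2.2 (h g hg hp x hx hinf)
  exact absurd h1 (hinf m hm)

end Pool.Agent.Results.MP_afaf30_gt.LeafPreserving
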