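import Pool.Agent.Results.MP_afaf30_gt.FlagPreserving

/-!
# The Hilbert-Smith conjecture for towers of actions which are regular along leaves

Let `G` act on the spaces `X 0`, ..., `X r`, faithfully on `X r`.  Suppose that the action on `X 0` is
regular (in the sense of the starting result InfiniteOrbits), or that `X 0` has dimension at most one,
and that for every point `x` of the manifold part of `X (i + 1)` one of the following holds.

* The small elements of `G` which act trivially on `X i` preserve a set `L` through `x`, and their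
  action on `L` is regular or `L` has dimension at most one.  For example `L` can be a component of a
  fibre of an equivariant map from `X (i + 1)` to `X i`.
* The small elements of `G` which act trivially on `X i` commute with a group `Λ` which acts on
  `X (i + 1)`, map `x` into its `Λ`-orbit, and some neighbourhood of `x` contains no orbit `H x` of a
  nontrivial subgroup `H` of `Λ`.  For example `X (i + 1)` is a principal bundle over `X i` whose
  structure group `Λ` is a Lie group, and `G` acts by automorphisms.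

Nothing but continuity is assumed about the action on `X (i + 1)` transversally to the leaves, and
in the second case also along them; dimensions and constants may depend on the leaf.  Then `G` is a
Lie group.

Proof.  A compact totally disconnected group `S` of small elements has an open subgroup which acts
trivially on `X 0`.  If the open subgroup `K` acts trivially on `X i`, then every point `x` of the
manifold part of `X (i + 1)` is fixed by an open subgroup of `K`: in the first case an open subgroup
acts trivially on the leaf `L` of `x`; in the second case an open subgroup `P` maps `x` into the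
neighbourhood, and the `l` in `Λ` with `l x` in `P x` form a subgroup, which is trivial.  So the
elements of `S` have finite orbits on this manifold part, and an open subgroup of `S` acts trivially
on `X (i + 1)`.
-/

set_option autoImplicit false

namespace Pool.Agent.Results.MP_afaf30_gt.LeafwiseActions

open MeasureTheory Set Metric Filter Topology
open scoped ENNReal
open Pool.Agent.U385.HF (TriAt FlagAt finite_orbit trivial_near exists_pow)
open Pool.Agent.R775.HS (Stable RegA Crit Small GoodMap closure_zpowers_le crit_of_hom profinite')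
open Pool.Agent.N512.HS (InfOrbit exists_good_inf crit_regI RegI)
open Pool.Agent.R775.HC (BL stable_BL)
open Pool.Agent.Results.MP_afaf30_gt.InfiniteOrbits (Reg Regular InfiniteOrbit)
open Pool.Agent.Results.MP_afaf30_gt.FlagPreserving (SmallTD smallTD_of_hom IsLieGroup)

/-- The action of `G` on the metric space `Y` is good: `Y` has dimension `k ≥ 2`, with a connected
dense set of points with bi-Lipschitz charts, and all elements with powers in a compact totally
disconnected subset of `V` have a nonzero power which is regular in the sense of InfiniteOrbits; or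
`Y` has an open dense connected subset which is a manifold of dimension at most one. -/
def Good (G Y : Type) [Group G] [TopologicalSpace G] [MetricSpace Y] [MeasurableSpace Y]
    [BorelSpace Y] [MulAction G Y] (V : Set G) : Prop :=
  (∃ k : ℕ, 2 ≤ k ∧ Dense (Reg k Y) ∧ IsPreconnected (Reg k Y) ∧
    ∀ g : G, SmallTD V g → ∃ M : ℤ, M ≠ 0 ∧ Regular k Y (g ^ M)) ∨
  ∃ k : ℕ, k ≤ 1 ∧ ∃ D : Set Y, IsOpen D ∧ Dense D ∧ IsPreconnected D ∧
    ∀ x ∈ D, ∃ φ : OpenPartialHomeomorph Y (EuclideanSpace ℝ (Fin k)), x ∈ φ.source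

/-- The elements of `K` in some neighbourhood of `1` belong to a subgroup `N`, and there is an
`N`-invariant set `L` which contains `x` and on which the action of `N` is good. -/
def LeafGood {G Y : Type} [Group G] [TopologicalSpace G] [MetricSpace Y] [MeasurableSpace Y]
    [BorelSpace Y] [MulAction G Y] (V K : Set G) (x : Y) : Prop :=
  ∃ (N : Subgroup G) (L : SubMulAction N Y), x ∈ L ∧ (∃ W ∈ 𝓝 (1 : G), W ∩ K ⊆ (N : Set G)) ∧
    Good N L {g | (g : G) ∈ V}

/-- There are a group `Λ` which acts on `Y` and a neighbourhood `O` of `x` which contains no orbit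
`H x` of a nontrivial subgroup `H` of `Λ`, and the elements of `K` in some neighbourhood of `1` commute
with `Λ` and map `x` into its `Λ`-orbit. -/
def OrbitGood {G Y : Type} [Group G] [TopologicalSpace G] [TopologicalSpace Y] [MulAction G Y]
    (K : Set G) (x : Y) : Prop :=
  ∃ (Λ : Type) (_ : Group Λ) (_ : MulAction Λ Y),
    (∃ O ∈ 𝓝 x, ∀ H : Subgroup Λ, (∀ l ∈ H, l • x ∈ O) → H = ⊥) ∧
    ∃ W ∈ 𝓝 (1 : G), ∀ g ∈ W ∩ K, (∀ (l : Λ) (y : Y), g • l • y = l • g • y) ∧
      ∃ l : Λ, g • x = l • x

set_option linter.unusedSectionVars false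

section crit

variable {G Y S : Type} [Group G] [TopologicalSpace G] [IsTopologicalGroup G] [T2Space G]
  [Group S] [TopologicalSpace S] [IsTopologicalGroup S] [CompactSpace S] [T2Space S]
  [TotallyDisconnectedSpace S]

/-- the criterion from finite orbits -/
theorem crit_fin {n : ℕ} [TopologicalSpace Y] [T2Space Y] [MulAction S Y] [ContinuousSMul S Y]
    {D : Set Y} (h : ∀ (s : S) (p : ℕ), p.Prime → Tendsto (fun j : ℕ => s ^ p ^ j) atTop (𝓝 1) →
      ∀ x ∈ D, ∃ m : ℕ, 0 < m ∧ s ^ m • x = x) (s : S) :
    Crit {φ : OpenPartialHomeomorph Y (EuclideanSpace ℝ (Fin n)) | φ.source ⊆ D} s := by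
  intro p hp hgp hcomp φ hφ hs
  obtain ⟨F0, -, -, -, h4⟩ := exists_good_inf hcomp hs
  apply h4
  intro y hy ε hε
  refine ⟨y, hy, by rwa [dist_self], ?_⟩
  intro C hC3 _ hCZ _ v hv
  exfalso
  have hvt : v ∈ φ.target := hs.1 (closedBall_subset_closedBall (by norm_num) (hC3 hv))
  obtain ⟨x, hxφ, hxI⟩ := mem_closure_iff.1 (hCZ v hv) φ.source φ.open_source
    (φ.map_target hvt)
  obtain ⟨m, hm, hx⟩ := h s p hp hgp x (hφ hxφ)
  exact hxI m hm hx

theorem stable_D {n : ℕ} [TopologicalSpace Y] (D : Set Y) :
    Stable n {φ : OpenPartialHomeomorph Y (EuclideanSpace ℝ (Fin n)) | φ.source ⊆ D} := by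
  intro φ hφ e _
  show (φ.trans e).source ⊆ D
  rw [OpenPartialHomeomorph.trans_source]
  exact inter_subset_left.trans hφ

theorem regA_D {n : ℕ} [TopologicalSpace Y] {D : Set Y} (hDo : IsOpen D)
    (hch : ∀ x ∈ D, ∃ φ : OpenPartialHomeomorph Y (EuclideanSpace ℝ (Fin n)), x ∈ φ.source) :
    RegA {φ : OpenPartialHomeomorph Y (EuclideanSpace ℝ (Fin n)) | φ.source ⊆ D} = D := by
  ext x
  constructor
  · rintro ⟨φ, hφ, hx⟩
    exact hφ hx
  · intro hx
    obtain ⟨φ, hφ⟩ := hch x hx
    refine ⟨φ.restrOpen D hDo, ?_, ?_⟩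
    · show (φ.restrOpen D hDo).source ⊆ D
      rw [OpenPartialHomeomorph.restrOpen_source]
      exact inter_subset_right
    · rw [OpenPartialHomeomorph.restrOpen_source]
      exact ⟨hφ, hx⟩

theorem subsingleton_zero [TopologicalSpace Y] [T2Space Y] {D : Set Y} (hDd : Dense D)
    (hDc : IsPreconnected D)
    (hch : ∀ x ∈ D, ∃ φ : OpenPartialHomeomorph Y (EuclideanSpace ℝ (Fin 0)), x ∈ φ.source) :
    Subsingleton Y := by
  have hop : ∀ x ∈ D, IsOpen ({x} : Set Y) := by
    intro x hx
    obtain ⟨φ, hφ⟩ := hch x hx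
    have h1 : φ.source = {x} := by
      ext y
      constructor
      · intro hy
        exact φ.injOn hy hφ (Subsingleton.elim _ _)
      · rintro rfl
        exact hφ
    rw [← h1]
    exact φ.open_source
  rcases D.eq_empty_or_nonempty with h0 | ⟨x, hx⟩
  · refine ⟨fun a b => ?_⟩
    rw [h0] at hDd
    exact absurd (hDd a) (by simp)
  · have h2 : D ⊆ {x} :=
      hDc.subset_isClopen ⟨isClosed_singleton, hop x hx⟩ ⟨x, hx, rfl⟩
    have h3 : ∀ a : Y, a = x := by
      intro a
      have h4 := closure_mono h2 (hDd a)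
      rwa [closure_singleton] at h4
    exact ⟨fun a b => (h3 a).trans (h3 b).symm⟩

/-- An open subgroup acts trivially. -/
theorem triv_of_good [MetricSpace Y] [MeasurableSpace Y] [BorelSpace Y] [MulAction G Y]
    [ContinuousSMul G Y] {V : Set G} (hG : Good G Y V) (i : S →* G) (hi : Continuous i)
    (hinj : Function.Injective i) (hV : ∀ s, i s ∈ V) :
    ∃ K : Subgroup S, IsOpen (K : Set S) ∧ ∀ s ∈ K, ∀ y : Y, i s • y = y := by
  let _ : MulAction S Y := MulAction.compHom Y i
  have hact : ∀ (s : S) (y : Y), s • y = i s • y := fun _ _ => rfl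
  have _ : ContinuousSMul S Y := ⟨by
    have h : Continuous (fun q : S × Y => i q.1 • q.2) := by fun_prop
    exact h⟩
  rcases hG with ⟨k, hk, hd, hc, h⟩ | ⟨k, hk, D, hDo, hDd, hDc, hch⟩
  · have hInf : ∀ (s : S) (x : Y), InfOrbit s x ↔ InfiniteOrbit (i s) x := by
      intro s x
      have h1 : ∀ m : ℕ, s ^ m • x = (i s) ^ m • x := fun m => by rw [hact, map_pow]
      simp only [InfOrbit, InfiniteOrbit, h1]
    have hreg : ∀ s : S, Regular k Y (i s) → RegI k Y s := by
      rintro s ⟨T, hT1, hT2, hT3⟩
      refine ⟨T, hT1, hT2, fun x hx hxI hxT => ?_⟩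
      rcases hT3 x hx ((hInf s x).1 hxI) hxT with h1 | ⟨α, C, δ, h1, h2, h3⟩
      · left
        exact h1
      · right
        exact ⟨α, C, δ, h1, h2, fun y hy hyx => h3 y ((hInf s y).1 hy) hyx⟩
    have hcr : ∀ s : S, Crit (BL k Y) s := by
      refine crit_regI hk fun s => ?_
      obtain ⟨M, hM, hR⟩ := h (i s) (smallTD_of_hom i hi hinj hV s)
      refine ⟨M, hM, hreg _ ?_⟩
      rw [map_zpow]
      exact hR
    obtain ⟨K, hKo, hK⟩ := profinite' (by omega : 1 ≤ k) (stable_BL k Y) hd hc hcr
      (fun K P _ q hq => crit_of_hom (K.subtype.comp P.subtype)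
          (continuous_subtype_val.comp continuous_subtype_val) (fun _ _ => rfl) q hq)
    exact ⟨K, hKo, hK⟩
  · obtain rfl | rfl : k = 0 ∨ k = 1 := by omega
    · have hsub := subsingleton_zero hDd hDc hch
      exact ⟨⊤, isOpen_univ, fun s _ y => Subsingleton.elim _ _⟩
    have hR := regA_D (n := 1) hDo hch
    have hcr : ∀ s : S, Crit {φ : OpenPartialHomeomorph Y (EuclideanSpace ℝ (Fin 1)) |
        φ.source ⊆ D} s := by
      refine crit_fin fun s p hp hgp x hx => ?_
      obtain ⟨φ, hφ⟩ := hch x hx
      refine finite_orbit (n := 1) ⟨φ, hφ, fun k y hy hgy => ?_⟩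
      refine ⟨univ, univ_mem, fun v _ w _ a hvw => ?_⟩
      have hvw' : v = w := by
        ext b
        exact hvw b (by omega)
      rw [hvw']
    obtain ⟨K, hKo, hK⟩ := profinite' le_rfl (stable_D (n := 1) D)
      (by rw [hR]; exact hDd) (by rw [hR]; exact hDc) hcr
      (fun K P _ q hq => crit_of_hom (K.subtype.comp P.subtype)
          (continuous_subtype_val.comp continuous_subtype_val) (fun _ _ => rfl) q hq)
    exact ⟨K, hKo, hK⟩

end crit

/-- The open dense connected set `D` consists of points with topological charts to a Euclidean space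
of some dimension `n ≥ 1`. -/
def ManifoldPart {Y : Type} [TopologicalSpace Y] (D : Set Y) : Prop :=
  IsOpen D ∧ Dense D ∧ IsPreconnected D ∧ ∃ n : ℕ, 1 ≤ n ∧
    ∀ x ∈ D, ∃ φ : OpenPartialHomeomorph Y (EuclideanSpace ℝ (Fin n)), x ∈ φ.source

/-- Lie groups from trivial open subgroups. -/
theorem lie_of_triv {Y : Type} [TopologicalSpace Y] [T2Space Y] {G : Type} [Group G]
    [TopologicalSpace G] [IsTopologicalGroup G] [LocallyCompactSpace G] [MulAction G Y]
    [ContinuousSMul G Y] [FaithfulSMul G Y] {V : Set G} (hV : V ∈ 𝓝 (1 : G))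
    (h : T2Space G → ∀ (S : Type) [Group S] [TopologicalSpace S] [IsTopologicalGroup S]
      [CompactSpace S] [T2Space S] [TotallyDisconnectedSpace S] (i : S →* G), Continuous i →
      Function.Injective i → (∀ s, i s ∈ V) →
      ∃ K : Subgroup S, IsOpen (K : Set S) ∧ ∀ s ∈ K, ∀ y : Y, i s • y = y) : IsLieGroup G := by
  have hT2 : T2Space G := by
    refine ⟨fun g h hgh => ?_⟩
    obtain ⟨x, hx⟩ : ∃ x : Y, g • x ≠ h • x := by
      by_contra hall
      push Not at hall
      exact hgh (eq_of_smul_eq_smul hall)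
    obtain ⟨u, v, hu, hv, hgu, hhv, huv⟩ := t2_separation hx
    have hc : Continuous (fun g : G => g • x) := by fun_prop
    exact ⟨_, _, hu.preimage hc, hv.preimage hc, hgu, hhv, huv.preimage _⟩
  have hN : Pool.Agent.W660.GY.NSS G := by
    refine Pool.Agent.Y485.HS.nss_of_Z V hV ?_
    intro S _ _ _ _ _ _ i hi hinj hiV
    obtain ⟨K, hKo, hKt⟩ := h hT2 S i hi hinj hiV
    have hbot : K = ⊥ := by
      rw [eq_bot_iff]
      intro k hk
      rw [Subgroup.mem_bot]
      apply hinj
      refine eq_of_smul_eq_smul (α := Y) fun x => ?_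
      rw [map_one, one_smul]
      exact hKt k hk x
    rw [hbot] at hKo
    refine discreteTopology_of_isOpen_singleton_one ?_
    convert hKo using 1
    ext x
    simp
  obtain ⟨E, i1, i2, i3, ⟨C⟩⟩ := Pool.Agent.Y328.HS.lga G hN
  let _ := i1
  let _ := i2
  have _ := i3
  exact Pool.Agent.Y286.HS.lgb G E C

/-- An open subgroup fixes `x`. -/
theorem fix_of_orbitGood {G Y S : Type} [Group G] [TopologicalSpace G] [TopologicalSpace Y]
    [MulAction G Y] [ContinuousSMul G Y] [Group S] [TopologicalSpace S] [IsTopologicalGroup S]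
    [CompactSpace S] [T2Space S] [TotallyDisconnectedSpace S] {Z : Set G} {x : Y}
    (h : OrbitGood Z x) (i : S →* G) (hi : Continuous i) {K : Subgroup S}
    (hKo : IsOpen (K : Set S)) (hK : ∀ s ∈ K, i s ∈ Z) :
    ∃ P : Subgroup S, IsOpen (P : Set S) ∧ ∀ s ∈ P, i s • x = x := by
  obtain ⟨Λ, i1, i2, ⟨O, hO, hOH⟩, W, hW, hWx⟩ := h
  obtain ⟨W', hW'W, hW'o, hW'1⟩ := mem_nhds_iff.1 hW
  obtain ⟨O', hO'O, hO'o, hO'x⟩ := mem_nhds_iff.1 hO
  have hc : Continuous (fun q : S => i q • x) := by fun_prop
  obtain ⟨P, hP⟩ := ProfiniteGrp.exist_openNormalSubgroup_sub_open_nhds_of_one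
    (U := (i ⁻¹' W' ∩ (fun q : S => i q • x) ⁻¹' O') ∩ (K : Set S))
    (((hW'o.preimage hi).inter (hO'o.preimage hc)).inter hKo)
    ⟨⟨by show i 1 ∈ W'; rw [map_one]; exact hW'1,
      by show i 1 • x ∈ O'; rw [map_one, one_smul]; exact hO'x⟩, K.one_mem⟩
  have hPo : IsOpen (P.toSubgroup : Set S) := P.isOpen
  have hPW : ∀ q ∈ P.toSubgroup, i q ∈ W ∩ Z := fun q hq =>
    ⟨hW'W (hP hq).1.1, hK q (hP hq).2⟩
  let H : Subgroup Λ :=
    { carrier := {l | ∃ q ∈ P.toSubgroup, i q • x = l • x}
      mul_mem' := by
        rintro a b ⟨q, hq, hqa⟩ ⟨t, ht, htb⟩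
        refine ⟨t * q, P.toSubgroup.mul_mem ht hq, ?_⟩
        rw [map_mul, mul_smul, hqa, (hWx _ (hPW t ht)).1, htb, mul_smul]
      one_mem' := ⟨1, P.toSubgroup.one_mem, by rw [map_one, one_smul, one_smul]⟩
      inv_mem' := by
        rintro a ⟨q, hq, hqa⟩
        refine ⟨q⁻¹, P.toSubgroup.inv_mem hq, ?_⟩
        rw [map_inv, inv_smul_eq_iff, (hWx _ (hPW q hq)).1, hqa, inv_smul_smul] }
  have hH : H = ⊥ := by
    apply hOH
    rintro l ⟨q, hq, hql⟩
    rw [← hql]
    exact hO'O (hP hq).1.2
  refine ⟨P.toSubgroup, hPo, fun q hq => ?_⟩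
  obtain ⟨l, hl⟩ := (hWx (i q) (hPW q hq)).2
  have hlH : l ∈ H := ⟨q, hq, hl⟩
  rw [hH, Subgroup.mem_bot] at hlH
  rw [hl, hlH, one_smul]

/-- **The Hilbert-Smith conjecture for towers of actions with good leaves.** Let a locally compact
group `G` act continuously on metric spaces `X 0`, ..., `X r`, faithfully on `X r`, and let `V` be a
neighbourhood of `1`. Suppose that the action on `X 0` is good, that the `X (i + 1)` have an open dense
connected set `D (i + 1)` which is a manifold, and that at the points `x` of `D (i + 1)` one of the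
conditions `LeafGood` and `OrbitGood` holds for the set of the elements of `G` which act trivially on
`X i`. Then `G` is a Lie group. -/
theorem result (G : Type) [Group G] [TopologicalSpace G] [IsTopologicalGroup G]
    [LocallyCompactSpace G] (V : Set G) (hV : V ∈ 𝓝 (1 : G)) (X : ℕ → Type)
    [∀ i, MetricSpace (X i)] [∀ i, MeasurableSpace (X i)] [∀ i, BorelSpace (X i)]
    [∀ i, MulAction G (X i)] [∀ i, ContinuousSMul G (X i)] (D : ∀ i, Set (X i))
    (r : ℕ) [FaithfulSMul G (X r)] (h0 : Good G (X 0) V)
    (hD : ∀ i < r, ManifoldPart (D (i + 1)))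
    (hF : ∀ i < r, ∀ x ∈ D (i + 1), LeafGood V {g : G | ∀ b : X i, g • b = b} x ∨
      OrbitGood {g : G | ∀ b : X i, g • b = b} x) :
    IsLieGroup G := by
  refine lie_of_triv (Y := X r) hV ?_
  intro hT2 S _ _ _ _ _ _ i hi hinj hiV
  have key : ∀ a ≤ r, ∃ K : Subgroup S, IsOpen (K : Set S) ∧ ∀ s ∈ K, ∀ y : X a, i s • y = y := by
    intro a
    induction a with
    | zero => exact fun _ => triv_of_good h0 i hi hinj hiV
    | succ a ih =>
      intro ha
      obtain ⟨K, hKo, hK⟩ := ih (by omega)
      obtain ⟨hDo, hDd, hDc, n, hn, hch⟩ := hD a (by omega)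
      let _ : MulAction S (X (a + 1)) := MulAction.compHom (X (a + 1)) i
      have hact : ∀ (s : S) (y : X (a + 1)), s • y = i s • y := fun _ _ => rfl
      have _ : ContinuousSMul S (X (a + 1)) := ⟨by
        have h : Continuous (fun q : S × X (a + 1) => i q.1 • q.2) := by fun_prop
        exact h⟩
      have hcr := crit_fin (Y := X (a + 1)) (S := S) (n := n) (D := D (a + 1)) (by
        intro s _ _ _ x hx
        rcases hF a (by omega) x hx with ⟨N, L, hxL, ⟨W, hW, hWN⟩, hg⟩ | hO
        · obtain ⟨W', hW'W, hW'o, hW'1⟩ := mem_nhds_iff.1 hW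
          obtain ⟨P, hP⟩ := ProfiniteGrp.exist_openNormalSubgroup_sub_open_nhds_of_one
            (U := i ⁻¹' W' ∩ (K : Set S)) ((hW'o.preimage hi).inter hKo)
            ⟨by show i 1 ∈ W'; rw [map_one]; exact hW'1, K.one_mem⟩
          have hPo : IsOpen (P.toSubgroup : Set S) := P.isOpen
          have hPN : ∀ q : P.toSubgroup, i q ∈ N := fun q =>
            hWN ⟨hW'W (hP q.2).1, hK q (hP q.2).2⟩
          have : CompactSpace P.toSubgroup :=
            isCompact_iff_compactSpace.1 (Subgroup.isClosed_of_isOpen P.toSubgroup hPo).isCompact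
          let j : P.toSubgroup →* N :=
            { toFun := fun q => ⟨i q, hPN q⟩
              map_one' := by ext; simp
              map_mul' := fun a b => by ext; simp }
          have hj : Continuous j := Continuous.subtype_mk (hi.comp continuous_subtype_val) _
          have hjinj : Function.Injective j := by
            intro a b hab
            have h1 : i a = i b := congrArg Subtype.val hab
            exact Subtype.ext (hinj h1)
          obtain ⟨Q, hQo, hQ⟩ := triv_of_good hg j hj hjinj (fun q => hiV q)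
          obtain ⟨m, hm, hsm⟩ := exists_pow P.toSubgroup hPo s
          obtain ⟨l, hl, hsl⟩ := exists_pow Q hQo ⟨s ^ m, hsm⟩
          refine ⟨m * l, Nat.mul_pos hm hl, ?_⟩
          have h1 := hQ _ hsl ⟨x, hxL⟩
          have h2 := congrArg Subtype.val h1
          rw [hact]
          have h3 : i (s ^ (m * l)) • x = x := by
            rw [pow_mul]
            exact h2
          exact h3
        · obtain ⟨P, hPo, hP⟩ := fix_of_orbitGood hO i hi hKo hK
          obtain ⟨m, hm, hsm⟩ := exists_pow P hPo s
          exact ⟨m, hm, hP _ hsm⟩)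
      have hR := regA_D (n := n) hDo hch
      obtain ⟨K', hKo', hK'⟩ := profinite' hn (stable_D (n := n) (D (a + 1)))
        (by rw [hR]; exact hDd) (by rw [hR]; exact hDc) hcr
        (fun K P _ q hq => crit_of_hom (K.subtype.comp P.subtype)
            (continuous_subtype_val.comp continuous_subtype_val) (fun _ _ => rfl) q hq)
      exact ⟨K', hKo', hK'⟩
  exact key r le_rfl

end Pool.Agent.Results.MP_afaf30_gt.LeafwiseActions
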